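import Pool.Agent.Y339.SB.Spec

/-!
# The signless Brouwer inequality up to an additive one half, for all graphs and all k

For every finite simple graph `G` with `m` edges and any `k` eigenvalues (with multiplicity) of
its signless Laplacian `Q = D + A`, the sum of these eigenvalues is at most
`m + k (k + 1) / 2 + 1 / 2`.

The proof: with `P` the orthogonal projection onto the span of the chosen eigenvectors,
`p_v = P_vv`, the sum is `m + ∑_{vw ∈ E} (p_v + p_w + 2 P_vw - 1)`, and each edge term is
compared with the pair function `En` of `Pool.Agent.Y339.SB.Core`, whose total over all pairs is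
at most `k (k + 1) / 2 + T - T ^ 2 / 2`, `T = ∑ p_v (1 - p_v)`.
-/

set_option autoImplicit false

namespace Pool.Agent.Results.MP_8cfe6a_co.UpToHalf

open Pool.Agent.Y339.SB

theorem result :
    ∀ (V : Type) [Fintype V] [DecidableEq V] (G : SimpleGraph V) [DecidableRel G.Adj]
      (hQ : (G.degMatrix ℝ + G.adjMatrix ℝ).IsHermitian) (s : Finset V),
      ∑ i ∈ s, hQ.eigenvalues i
        ≤ (G.edgeFinset.card : ℝ) + (s.card : ℝ) * ((s.card : ℝ) + 1) / 2 + 1 / 2 := by
  intro V _ _ G _ hQ s
  have h1 := two_sum_eig G hQ s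
  have h2 := core (P := proj hQ s) (proj_symm hQ s) (proj_idem hQ s) G.Adj (fun i => G.loopless.irrefl i)
  rw [proj_trace hQ s] at h2
  have h3 : 2 * ∑ i, proj hQ s i i * (1 - proj hQ s i i)
      - (∑ i, proj hQ s i i * (1 - proj hQ s i i)) ^ 2 ≤ 1 := by
    nlinarith [sq_nonneg ((∑ i, proj hQ s i i * (1 - proj hQ s i i)) - 1)]
  nlinarith

end Pool.Agent.Results.MP_8cfe6a_co.UpToHalf
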